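import Pool.Agent.Helper38K3.ZG.Incl

/-!
# How rare are the oracles relative to which `P` and `ZPP` differ?

For every gauge `f`, the set of the oracles `A` with `P(A) ≠ ZPP(A)` is a null set for `f` if and
only if `f` is polylogarithmic in the following sense: for some `C` and all large `N` there is
`N' ≥ N` with `f N' ≤ (log N) ^ C`. The same holds for `RP` and for `BPP` in place of `ZPP`.

Null part: the random bits are taken from places of the oracle which the algorithm cannot reach;
majority votes. Other part: a construction in stages which changes only `poly(n)` strings at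
input length `n`, plus a few marker strings by which a zero error algorithm recognises the
stages.
-/

namespace Pool.Agent.Results.MP_34c247_lc.ExactGauge

open Pool.Agent.H620R2.Gauge Pool.Agent.Helper38K3.ZG

/-- The gauges for which the oracles that separate `ZPP`, or `RP`, or `BPP` from `P` form a null
set. -/
theorem result (f : ℕ → ℝ) (Cl : Oracle → Set (List Bool) → Prop)
    (hCl : Cl = IsZPP ∨ Cl = IsRP ∨ Cl = IsBPP3) :
    Null f {A : Oracle | ∃ L, Cl A L ∧ ¬ IsP A L} ↔
      ∃ C : ℕ, ∀ᶠ N : ℕ in Filter.atTop, ∃ N' ≥ N, f N' ≤ (Real.logb 2 N) ^ C := by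
  have h1 : {A : Oracle | ∃ L, IsZPP A L ∧ ¬ IsP A L} ⊆ {A : Oracle | ∃ L, Cl A L ∧ ¬ IsP A L} := by
    rintro A ⟨L, h, h'⟩
    rcases hCl with rfl | rfl | rfl
    · exact ⟨L, h, h'⟩
    · exact ⟨L, isRP_of_isZPP h, h'⟩
    · exact ⟨L, isBPP3_of_isRP (isRP_of_isZPP h), h'⟩
  have h2 : {A : Oracle | ∃ L, Cl A L ∧ ¬ IsP A L} ⊆
      {A : Oracle | ∃ L, IsBPP3 A L ∧ ¬ IsP A L} := by
    rintro A ⟨L, h, h'⟩
    rcases hCl with rfl | rfl | rfl
    · exact ⟨L, isBPP3_of_isRP (isRP_of_isZPP h), h'⟩
    · exact ⟨L, isBPP3_of_isRP h, h'⟩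
    · exact ⟨L, h, h'⟩
  refine ⟨fun h => ?_, fun h => (null_bpp h).mono h2⟩
  by_contra hc
  exact not_null_zpp hc (h.mono h1)

end Pool.Agent.Results.MP_34c247_lc.ExactGauge
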