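import Pool.Agent.Helper74.PC.Alg

/-!
P versus ZPP for algorithms whose useful coin strings are closed under Boolean operations.

For every family `F` of Boolean operations: if no member of `F` is a projection or a negated
projection, then every language that has a one-sided-error algorithm whose accepting coin strings
contain, for every yes-instance `x`, a set of density at least `δ` that is closed under some
coordinatewise operation of `F` (which may depend on `x`) is in P, unconditionally.  If `F` has
such a member, then the restricted class is all of RP, and the restricted P versus ZPP question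
is equivalent to the question itself.
-/

namespace Pool.Agent.Results.MP_34c247_lc.PolymorphicCoins

open Pool.Agent.H38.NP Pool.Agent.H36.Sim Pool.Agent.Helper74.PC

/-- The class RP of the problem file. -/
def InRP (L : Set (List Bool)) : Prop :=
  ∃ R, InP R ∧ ∃ p : Polynomial ℕ,
    (∀ x ∉ L, ∀ r : Fin (p.eval x.length) → Bool, pair x (List.ofFn r) ∉ R) ∧
    ∀ x ∈ L, (1 / 2 : ℝ) * 2 ^ p.eval x.length ≤
      {r : Fin (p.eval x.length) → Bool | pair x (List.ofFn r) ∈ R}.ncard

/-- `L` has a polynomial-time algorithm with one-sided error such that, for every `x ∈ L`, the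
accepting coin strings include a set `P` of density at least `δ` that is closed under some
operation of the family `F`, applied coordinatewise. -/
def CoinAlg (δ : ℝ) (F : ∀ k, Set (Op k)) (L : Set (List Bool)) : Prop :=
  ∃ R, InP R ∧ ∃ p : Polynomial ℕ,
    (∀ x ∉ L, ∀ r : Fin (p.eval x.length) → Bool, pair x (List.ofFn r) ∉ R) ∧
    ∀ x ∈ L, ∃ P : Set (Fin (p.eval x.length) → Bool),
      (∀ r ∈ P, pair x (List.ofFn r) ∈ R) ∧ δ * 2 ^ p.eval x.length ≤ P.ncard ∧
      ∃ k, ∃ f ∈ F k, ClosedUnder f P

theorem pt_twist : PT fun z : Bits => raw (z.fst, Bits.mk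
    (z.snd.val.tail.map fun c => xor (z.snd.val.headD false) c)) := by
  have hs : PT fun z : Bits => z.snd.val := PT.bval PT.bsnd
  have hh : PT fun z : Bits => z.snd.val.headD false := PT.headD hs (PT.const false)
  have h : PT fun z : Bits => z.snd.val.tail.map fun c => xor (z.snd.val.headD false) c :=
    PT.map (f := fun (z : Bits) c => xor (z.snd.val.headD false) c)
      (PT.xor (hh.comp (g := fun p : Bits × Bool => p.1) (by fun_prop)) (by fun_prop))
      (PT.tail hs)
  exact PT.raw (PT.mk PT.bfst (PT.bmk h))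

/-- every language in RP has an algorithm whose accepting coin strings are closed under
negation -/
theorem twist {L : Set (List Bool)} (h : InRP L) : ∃ R, InP R ∧ ∃ p : Polynomial ℕ,
    (∀ x ∉ L, ∀ r : Fin (p.eval x.length) → Bool, pair x (List.ofFn r) ∉ R) ∧
    ∀ x ∈ L, ∃ P : Set (Fin (p.eval x.length) → Bool),
      (∀ r ∈ P, pair x (List.ofFn r) ∈ R) ∧ (1 / 2 : ℝ) * 2 ^ p.eval x.length ≤ P.ncard ∧
      ∀ r ∈ P, (fun j => !r j) ∈ P := by
  obtain ⟨R, hR, p, h0, h1⟩ := h
  let tw : List Bool → List Bool := fun y => y.tail.map fun c => xor (y.headD false) c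
  let R' : Set (List Bool) := {z | pair (ufst z) (tw (usnd z)) ∈ R}
  have hR' : InP R' := by
    obtain ⟨f, hf, hfR⟩ := hR
    have h2 : PT fun z : Bits => (⟨f (raw (z.fst, Bits.mk
        (z.snd.val.tail.map fun c => xor (z.snd.val.headD false) c))).val⟩ : Bits) :=
      (pt_of_polyTime hf).comp pt_twist
    refine inP_of_pt (fun z => decide ((⟨f (raw (z.fst, Bits.mk
        (z.snd.val.tail.map fun c => xor (z.snd.val.headD false) c))).val⟩ : Bits) = ⟨[true]⟩))
        (PT.eq h2 (PT.const _)) fun z => ?_
    rw [decide_eq_true_eq, Bits.mk.injEq, ← hfR]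
    rfl
  have hmem : ∀ x y, pair x y ∈ R' ↔ pair x (tw y) ∈ R := by
    intro x y
    show pair (ufst (pair x y)) (tw (usnd (pair x y))) ∈ R ↔ _
    simp
  have hofn : ∀ (m : ℕ) (r : Fin (m + 1) → Bool),
      tw (List.ofFn r) = List.ofFn fun j : Fin m => xor (r 0) (r j.succ) := by
    intro m r
    simp only [tw, List.ofFn_succ, List.tail_cons, List.headD_cons, List.map_ofFn]
    rfl
  refine ⟨R', hR', p + 1, fun x hx => ?_, fun x hx => ?_⟩
  · have e : (p + 1).eval x.length = p.eval x.length + 1 := by simp
    rw [e]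
    intro r
    rw [hmem, hofn]
    exact h0 x hx _
  · have e : (p + 1).eval x.length = p.eval x.length + 1 := by simp
    rw [e]
    have h1 := h1 x hx
    generalize p.eval x.length = m at h1
    let A : Set (Fin m → Bool) := {r | pair x (List.ofFn r) ∈ R}
    let P : Set (Fin (m + 1) → Bool) := {r | (fun j : Fin m => xor (r 0) (r j.succ)) ∈ A}
    refine ⟨P, fun r hr => ?_, ?_, fun r hr => ?_⟩
    · rw [hmem, hofn]; exact hr
    · let φ : Bool → (Fin m → Bool) → (Fin (m + 1) → Bool) := fun b r =>
        Fin.cons b fun j => xor b (r j)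
      have hinj : ∀ b, Function.Injective (φ b) := by
        intro b r r' h
        have h2 := (Fin.cons_injective2 h).2
        funext j
        have := congrFun h2 j
        simpa using this
      have h2 : ∀ b, (φ b '' A).ncard = A.ncard := fun b => Set.ncard_image_of_injective _ (hinj b)
      have hd : Disjoint (φ false '' A) (φ true '' A) := by
        rw [Set.disjoint_left]
        rintro _ ⟨r, -, rfl⟩ ⟨r', -, h⟩
        have := congrFun h 0
        simp [φ] at this
      have h3 : φ false '' A ∪ φ true '' A ⊆ P := by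
        rintro r (⟨r, hr, rfl⟩ | ⟨r, hr, rfl⟩)
        · show (fun j : Fin m => xor (φ false r 0) (φ false r j.succ)) ∈ A
          simpa [φ] using hr
        · show (fun j : Fin m => xor (φ true r 0) (φ true r j.succ)) ∈ A
          simpa [φ] using hr
      have h4 : (φ false '' A ∪ φ true '' A).ncard = A.ncard + A.ncard := by
        rw [Set.ncard_union_eq hd (Set.toFinite _) (Set.toFinite _), h2, h2]
      have h5 : A.ncard + A.ncard ≤ P.ncard := by
        rw [← h4]; exact Set.ncard_le_ncard h3 (Set.toFinite _)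
      have h6 : ((A.ncard + A.ncard : ℕ) : ℝ) ≤ P.ncard := by exact_mod_cast h5
      have h1' : (1 / 2 : ℝ) * 2 ^ m ≤ A.ncard := h1
      push_cast at h6
      rw [pow_succ]
      linarith
    · show (fun j : Fin m => xor (!r 0) (!r j.succ)) ∈ A
      have : (fun j : Fin m => xor (!r 0) (!r j.succ)) = fun j : Fin m => xor (r 0) (r j.succ) := by
        funext j; cases r 0 <;> cases r j.succ <;> rfl
      rw [this]; exact hr

theorem result (F : ∀ k, Set (Op k)) :
    ((∀ k, ∀ f ∈ F k, ¬ IsPM f) → ∀ δ > 0, ∀ L, CoinAlg δ F L → InP L) ∧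
    ((∃ k, ∃ f ∈ F k, IsPM f) → (∀ L, CoinAlg (1 / 2) F L ↔ InRP L) ∧
      ((∀ L, CoinAlg (1 / 2) F L → CoinAlg (1 / 2) F Lᶜ → InP L) ↔
        ∀ L, InRP L → InRP Lᶜ → InP L)) := by
  refine ⟨fun hF δ hδ L ⟨R, hR, p, h0, h1⟩ => ?_, fun ⟨k, f, hf, hPM⟩ => ?_⟩
  · obtain ⟨t, ht⟩ := dense δ hδ
    refine inP_of_few L R hR p t h0 fun x hx => ?_
    obtain ⟨P, hP, hd, k, f, hf, hc⟩ := h1 x hx
    have hpos : 0 < P.ncard := by
      have : (0 : ℝ) < P.ncard := lt_of_lt_of_le (by positivity) hd
      exact_mod_cast this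
    have hne : P.Nonempty := by
      rw [Set.nonempty_iff_ne_empty]
      rintro rfl
      simp at hpos
    obtain ⟨g, hg, h⟩ := ht _ P hd (clone hc hne (hF k f hf))
    exact ⟨g, hP g hg, h⟩
  · have key : ∀ L, CoinAlg (1 / 2) F L ↔ InRP L := by
      intro L
      constructor
      · rintro ⟨R, hR, p, h0, h1⟩
        refine ⟨R, hR, p, h0, fun x hx => ?_⟩
        obtain ⟨P, hP, hd, -⟩ := h1 x hx
        refine hd.trans ?_
        exact_mod_cast Set.ncard_le_ncard (s := P)
          (t := {r : Fin (p.eval x.length) → Bool | pair x (List.ofFn r) ∈ R}) hP (Set.toFinite _)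
      · intro hL
        obtain ⟨R, hR, p, h0, h1⟩ := twist hL
        refine ⟨R, hR, p, h0, fun x hx => ?_⟩
        obtain ⟨P, hP, hd, hneg⟩ := h1 x hx
        refine ⟨P, hP, hd, k, f, hf, fun g hg => ?_⟩
        obtain ⟨i, h | h⟩ := hPM
        · simp only [h]; exact hg i
        · simp only [h]; exact hneg _ (hg i)
    refine ⟨key, ?_⟩
    simp only [key]

end Pool.Agent.Results.MP_34c247_lc.PolymorphicCoins
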