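import Pool.Agent.Z45.UO.Defs
import Pool.Agent.Z45.UO.Derand

/-!
# P and ZPP: the oracles that do not help to derandomize

The classes `P` and `ZPP` of languages in this file are classes without oracle; `IsP A L` says that
the language `L` is decided in polynomial time with the oracle `A`. Consider the set `U` of the
useless oracles: those `A` for which some language in `ZPP` is not in `P` relative to `A`. If
`P = ZPP` then `U` is empty. In any case `U` has measure zero (Bennett and Gill), even Hausdorff
dimension zero (Gu and Lutz), that is, `U` is null for the gauges `(1 - s) N` for all `s > 0`.

It is shown that `P = ZPP` as soon as `U` is null for a gauge `N - c log log N`; so, if `P` is not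
`ZPP`, then `U` is not null for any of these gauges. Here `Null f X` says that for every `δ > 0` the
set `X` can be covered by cylinders, given by the first `N` bits of the oracle for various `N`, with
`∑ 2 ^ (f N - N) ≤ δ`; the larger the gauge `f` is, the fewer sets are null (for `f N = N` only the
empty set is).

Proof: let `L` be a language such that `L ∈ P(A)` for all `A` outside a null set for the gauge
`N - c log log N`. Consider the oracles which are empty with the possible exception of the free
places `0 ^ ℓ 1 ^ r`, where `ℓ` is a power of two and `r < c`. The number of free places among the
first `N` strings is `c log log N - O(1)`; so for random contents of the free places the oracle is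
not in the null set with probability one, and hence one oracle algorithm `M` decides `L` for a set
`G` of oracles of positive measure. Fix a finite table of contents of some free places for which
the conditional probability of `G` is at least `3/4` of the supremum of these conditional
probabilities. Then for every input `x` the following deterministic algorithm is right: run
through all extensions of the table to the free places of length polynomial in `|x|` (there are
only polynomially many, as there are `O(log |x|)` such places), simulate `M` for each of them, and
take the majority of the results. Namely, the conditional probability of `G` is zero for each
extension that leads to a wrong result, it is at most `4/3` times the one of the table for the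
other extensions, and its average is the one of the table; so at least `3/4` of the results are
right.

(helper45)
-/

set_option autoImplicit false

open Pool.Agent.NPC Pool.Agent.H620R2.Gauge Pool.Agent.Z45.OG Pool.Agent.Z45.UO

theorem Pool.Agent.Results.MP_34c247_lc.UselessOracles.result (c : ℝ) :
    (∀ L, InZPP L → InPtime L) ↔
      Null (fun N => N - c * Real.logb 2 (Real.logb 2 N))
        {A : Oracle | ∃ L, InZPP L ∧ ¬ IsP A L} := by
  constructor
  · intro h δ _
    refine ⟨∅, ?_, by simp⟩
    rintro A ⟨L, hL, hA⟩
    exact absurd (isP_of_inP (h L hL) A) hA
  · intro h L hL
    exact inPtime_of_null (h.mono fun A hA => ⟨L, hL, hA⟩)
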