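import Pool.Agent.Z45.UO.Robust2

/-!
# P and ZPP: oracle algorithms that are never wrong, with few good oracles

The classes `P` and `ZPP` of languages in this file are classes without oracle. Let `M` be a
polynomial-time oracle algorithm that is never wrong about the language `L`: with no oracle it gives
the wrong one of the answers `[true]`, `[false]`, but it may fail to give an answer. An oracle is
good for `M` if `M` gives an answer for every input. If some oracle is good then
`L ∈ NP ∩ coNP` (Schöning), and every language in `NP ∩ coNP` occurs. If `L ∈ ZPP` then, for a
suitable `M`, almost all oracles are good.

It is shown that `L` is in `ZPP` already if the set of the good oracles is not null for a gauge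
`c log log N`. So `P = ZPP` is equivalent to the statement that all such languages are in `P`.
Here `Null f X` says that for every `δ > 0` the set `X` can be covered by cylinders, given by the
first `N` bits of the oracle for various `N`, with `∑ 2 ^ (f N - N) ≤ δ`; for `f = 0` these are the
sets of measure zero, and the larger the gauge `f` is, the fewer sets are null.

Proof: if the set `G` of the good oracles is not null for the gauge `c log log N` then, by covering
with all cylinders of a suitable length that contain a good oracle, a random oracle leads to
answers for all inputs of length at most `n` with probability at least `n ^ (-C)` (up to a
constant). The algorithm is simulated by random answers to the new questions, and this is repeated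
polynomially often; every answer is right. Conversely, the random strings of algorithms
for `L ∈ ZPP` are read in an oracle, so that for an input `x` the probability to get no answer is
at most `2 ^ (- 2 |x| - 2)`; the sum of these probabilities is at most `1/2`.

(helper45)
-/

set_option autoImplicit false

open Pool.Agent.NPC Pool.Agent.H620R2.Gauge Pool.Agent.Z45.OG Pool.Agent.Z45.UO

theorem Pool.Agent.Results.MP_34c247_lc.ZeroErrorGap.result :
    (∀ L, InZPP L → InPtime L) ↔
      ∀ (L : Set (List Bool)) (M : Alg) (c : ℝ), NeverWrong M L →
        ¬ Null (fun N => c * Real.logb 2 (Real.logb 2 N)) (GoodFor M) → InPtime L := by
  constructor
  · intro h L M c hM hc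
    exact h L (inZPP_of_nonnull hM hc)
  · intro h L hL
    obtain ⟨M, hM, hc⟩ := exists_robust_nonnull hL
    exact h L M 0 hM hc
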